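import Mathlib

set_option autoImplicit false

namespace Pool.QU13

open Finset

/-- half difference along the map `S k` -/
noncomputable def qd {X : Type} (S : ℕ → X → X) (k : ℕ) (f : X → ℝ) (x : X) : ℝ :=
  (f x - f (S k x)) / 2

/-- the weights -/
def cc (m k : ℕ) : ℝ := ((k : ℝ) + 1) * ((m : ℝ) - k)

/-- the generator -/
noncomputable def LL {X : Type} (S : ℕ → X → X) (m : ℕ) (f : X → ℝ) (x : X) : ℝ :=
  ∑ k ∈ range m, qd S k f x

/-- the data: involutions `S k`, site distances `e j` with the harmonic coupling property -/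
structure Cpl {X : Type} (S : ℕ → X → X) (m : ℕ) (e : ℕ → X → X → ℕ) : Prop where
  inv : ∀ k, k < m → ∀ x, S k (S k x) = x
  zero : ∀ x y, e 0 x y = 0
  top : ∀ x y, e (m + 1) x y = 0
  left : ∀ k, k < m → ∀ j, j ≠ k + 1 → ∀ x y, e j (S k x) y = e j x y
  right : ∀ k, k < m → ∀ j, j ≠ k + 1 → ∀ x y, e j x (S k y) = e j x y
  harm : ∀ k, k < m → ∀ x y,
    e (k + 1) x y + e (k + 1) (S k x) (S k y) ≤ e k x y + e (k + 2) x y ∨
    e (k + 1) x (S k y) + e (k + 1) (S k x) y ≤ e k x y + e (k + 2) x y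
  sep : ∀ x y, (∀ j, j ≤ m → e j x y = 0) → x = y
  adj : ∀ k, k < m → ∀ x, e (k + 1) x (S k x) ≤ 1
  self : ∀ j x, e j x x = 0

theorem sum_inv {X : Type} [Fintype X] (T : X → X) (hT : ∀ x, T (T x) = x) (F : X → ℝ) :
    ∑ x, F (T x) = ∑ x, F x :=
  Equiv.sum_comp (⟨T, T, hT, hT⟩ : X ≃ X) F

theorem cc_nonneg {m k : ℕ} (hk : k < m) : 0 ≤ cc m k := by
  unfold cc
  have : (k : ℝ) ≤ m := by exact_mod_cast hk.le
  apply mul_nonneg
  · positivity
  · linarith

/-- the total distance -/
def FF {X : Type} (m : ℕ) (e : ℕ → X → X → ℕ) (x y : X) : ℕ := ∑ k ∈ range m, e (k + 1) x y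

/-- the weighted total distance -/
noncomputable def FC {X : Type} (m : ℕ) (e : ℕ → X → X → ℕ) (x y : X) : ℝ :=
  ∑ k ∈ range m, cc m k * e (k + 1) x y

/-- the two point function -/
noncomputable def PH {X : Type} (m : ℕ) (e : ℕ → X → X → ℕ) (b : ℝ) (x y : X) : ℝ :=
  (1 - b) * (1 - (1 - b) ^ FF m e x y) + b ^ 3 * FC m e x y

/-- value of a two point function on the two outcomes of the coupling -/
def mt {X : Type} (S : ℕ → X → X) (c : Bool) (H : X → X → ℝ) (k : ℕ) (x y : X) : ℝ :=
  if c then H x y + H (S k x) (S k y) else H x (S k y) + H (S k x) y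

/-- convexity of powers at integers -/
theorem pow_up (r : ℝ) (h0 : 0 ≤ r) (h1 : r ≤ 1) (d : ℕ) (hd : 1 ≤ d) :
    -(1 - r) * d + (1 - r) ^ 2 ≤ r * (r ^ d - 1) := by
  induction d, hd using Nat.le_induction with
  | base => push_cast; nlinarith
  | succ d hd ih =>
    have h2 : r ^ (d + 1) ≤ 1 := pow_le_one₀ h0 h1
    have h3 : r * (r ^ (d + 1) - 1) = r * (r ^ d - 1) - (1 - r) * r ^ (d + 1) := by ring
    rw [h3]
    push_cast
    nlinarith

theorem pow_down (r : ℝ) (h0 : 0 ≤ r) (h1 : r ≤ 1) (d : ℕ) :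
    (1 - r) * d * r ^ d ≤ r * (1 - r ^ d) := by
  induction d with
  | zero => simp
  | succ d ih =>
    have h2 : r ^ (d + 1) ≤ r ^ d := by
      rw [pow_succ]
      exact mul_le_of_le_one_right (pow_nonneg h0 d) h1
    have h3 : r * (1 - r ^ (d + 1)) = r * (1 - r ^ d) + (1 - r) * r ^ (d + 1) := by ring
    rw [h3]
    push_cast
    have h4 : (1 - r) * d * r ^ (d + 1) ≤ (1 - r) * d * r ^ d := by
      apply mul_le_mul_of_nonneg_left h2
      apply mul_nonneg
      · linarith
      · positivity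
    nlinarith

/-- the pointwise inequality -/
theorem pow_conv (r : ℝ) (h0 : 0 ≤ r) (h1 : r ≤ 1) (F G : ℕ) :
    r ^ F * (-(1 - r) * ((G : ℝ) - F) + (1 - r) ^ 2 * (if F < G then 1 else 0))
      ≤ r * (r ^ G - r ^ F) := by
  rcases lt_trichotomy F G with h | h | h
  · obtain ⟨d, rfl⟩ : ∃ d, G = F + d := ⟨G - F, by omega⟩
    rw [if_pos h]
    have := pow_up r h0 h1 d (by omega)
    have h2 : r * (r ^ (F + d) - r ^ F) = r ^ F * (r * (r ^ d - 1)) := by
      rw [pow_add]
      ring
    rw [h2]
    apply mul_le_mul_of_nonneg_left _ (pow_nonneg h0 F)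
    push_cast
    calc _ = -(1 - r) * d + (1 - r) ^ 2 := by ring
      _ ≤ _ := this
  · subst h
    simp
  · obtain ⟨d, rfl⟩ : ∃ d, F = G + d := ⟨F - G, by omega⟩
    rw [if_neg (by omega)]
    have := pow_down r h0 h1 d
    have h2 : r * (r ^ G - r ^ (G + d)) = r ^ G * (r * (1 - r ^ d)) := by
      rw [pow_add]
      ring
    rw [h2, pow_add]
    push_cast
    calc r ^ G * r ^ d * (-(1 - r) * ((G : ℝ) - (G + d)) + (1 - r) ^ 2 * 0)
        = r ^ G * ((1 - r) * d * r ^ d) := by ring
      _ ≤ _ := mul_le_mul_of_nonneg_left this (pow_nonneg h0 G)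

/-- summation by parts with the quadratic weights -/
theorem parts (m : ℕ) (a : ℕ → ℝ) (n : ℕ) :
    ∑ k ∈ range n, cc m k * (a k + a (k + 2) - 2 * a (k + 1)) =
      -2 * ∑ k ∈ range n, a (k + 1) + cc m 0 * a 0 - cc m n * a n
        + (n : ℝ) * ((m : ℝ) + 1 - n) * a (n + 1) := by
  induction n with
  | zero => simp
  | succ n ih =>
    rw [sum_range_succ, ih, sum_range_succ]
    unfold cc
    push_cast
    ring

theorem tele (a : ℕ → ℝ) (n : ℕ) :
    ∑ k ∈ range n, (a k + a (k + 2) - 2 * a (k + 1)) = a 0 - a 1 - a n + a (n + 1) := by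
  induction n with
  | zero => simp
  | succ n ih =>
    rw [sum_range_succ, ih]
    ring

section

variable {X : Type} {S : ℕ → X → X} {m : ℕ} {e : ℕ → X → X → ℕ}

/-- change of the total distance when only site `k` changes -/
theorem FF_change (k : ℕ) (hk : k < m) (x y x' y' : X)
    (h : ∀ j, j ≠ k + 1 → e j x' y' = e j x y) :
    FF m e x' y' + e (k + 1) x y = FF m e x y + e (k + 1) x' y' := by
  unfold FF
  have hk' := mem_range.mpr hk
  rw [← add_sum_erase _ _ hk', ← add_sum_erase (range m) (fun k => e (k + 1) x y) hk']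
  have : ∑ j ∈ (range m).erase k, e (j + 1) x' y' = ∑ j ∈ (range m).erase k, e (j + 1) x y := by
    apply sum_congr rfl
    intro j hj
    apply h
    have := (mem_erase.mp hj).1
    omega
  rw [this]
  ring

theorem FC_change (k : ℕ) (hk : k < m) (x y x' y' : X)
    (h : ∀ j, j ≠ k + 1 → e j x' y' = e j x y) :
    FC m e x' y' = FC m e x y + cc m k * ((e (k + 1) x' y' : ℝ) - e (k + 1) x y) := by
  unfold FC
  have hk' := mem_range.mpr hk
  rw [← add_sum_erase _ _ hk', ← add_sum_erase (range m) (fun k => cc m k * e (k + 1) x y) hk']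
  have : ∑ j ∈ (range m).erase k, cc m j * (e (j + 1) x' y' : ℝ) =
      ∑ j ∈ (range m).erase k, cc m j * (e (j + 1) x y : ℝ) := by
    apply sum_congr rfl
    intro j hj
    rw [h]
    have := (mem_erase.mp hj).1
    omega
  rw [this]
  ring

/-- one outcome at site `k` -/
theorem PH_change (b : ℝ) (hb0 : 0 ≤ b) (hb1 : b ≤ 1) (k : ℕ) (hk : k < m) (x y x' y' : X)
    (h : ∀ j, j ≠ k + 1 → e j x' y' = e j x y) :
    PH m e b x' y' - PH m e b x y ≤
      -((1 - b) ^ FF m e x y * (-b * ((e (k + 1) x' y' : ℝ) - e (k + 1) x y)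
        + b ^ 2 * (if e (k + 1) x y < e (k + 1) x' y' then 1 else 0)))
      + b ^ 3 * (cc m k * ((e (k + 1) x' y' : ℝ) - e (k + 1) x y)) := by
  have h1 := FF_change k hk x y x' y' h
  have h2 := FC_change k hk x y x' y' h
  have h3 := pow_conv (1 - b) (by linarith) (by linarith) (FF m e x y) (FF m e x' y')
  have h4 : ((FF m e x' y' : ℝ) - FF m e x y) = (e (k + 1) x' y' : ℝ) - e (k + 1) x y := by
    have : (FF m e x' y' : ℝ) + e (k + 1) x y = FF m e x y + e (k + 1) x' y' := by
      exact_mod_cast h1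
    linarith
  have h5 : (FF m e x y < FF m e x' y') ↔ (e (k + 1) x y < e (k + 1) x' y') := by omega
  rw [h4] at h3
  simp only [h5, sub_sub_cancel] at h3
  unfold PH
  rw [h2]
  nlinarith

/-- the sum over all sites of one matching of outcomes -/
theorem super (hc : Cpl S m e) (b : ℝ) (hb0 : 0 < b) (hb1 : b ≤ 1) (x y : X) (hxy : x ≠ y) :
    ∃ σ : ℕ → Bool,
      ∑ k ∈ range m, (mt S (σ k) (PH m e b) k x y - 2 * PH m e b x y) ≤ -2 * b ^ 2 := by
  classical
  -- the outcomes
  have hout : ∀ k, k < m → ∃ c : Bool, ∃ p q : X × X,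
      (∀ H : X → X → ℝ, mt S c H k x y = H p.1 p.2 + H q.1 q.2) ∧
      (∀ j, j ≠ k + 1 → e j p.1 p.2 = e j x y) ∧ (∀ j, j ≠ k + 1 → e j q.1 q.2 = e j x y) ∧
      e (k + 1) p.1 p.2 + e (k + 1) q.1 q.2 ≤ e k x y + e (k + 2) x y := by
    intro k hk
    rcases hc.harm k hk x y with h | h
    · refine ⟨true, (x, y), (S k x, S k y), fun H => by simp [mt], fun j _ => rfl,
        fun j hj => ?_, h⟩
      rw [hc.left k hk j hj, hc.right k hk j hj]
    · refine ⟨false, (x, S k y), (S k x, y), fun H => by simp [mt],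
        fun j hj => hc.right k hk j hj x y, fun j hj => hc.left k hk j hj x y, h⟩
  have : Nonempty (X × X) := ⟨(x, y)⟩
  choose! c p q hmt hp hq hs using hout
  refine ⟨c, ?_⟩
  set F : ℕ := FF m e x y with hF
  -- abbreviations for the site data
  set D : ℕ → ℝ := fun k => (e (k + 1) (p k).1 (p k).2 : ℝ) + e (k + 1) (q k).1 (q k).2
    - 2 * e (k + 1) x y with hD
  set I : ℕ → ℝ := fun k => (if e (k + 1) x y < e (k + 1) (p k).1 (p k).2 then (1 : ℝ) else 0)
    + (if e (k + 1) x y < e (k + 1) (q k).1 (q k).2 then (1 : ℝ) else 0) with hI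
  have hI0 : ∀ k, 0 ≤ I k := by
    intro k
    simp only [hI]
    positivity
  set A : ℕ → ℝ := fun k => (e k x y : ℝ) + e (k + 2) x y - 2 * e (k + 1) x y with hA
  have hDA : ∀ k, k < m → D k ≤ A k := by
    intro k hk
    have := hs k hk
    have h2 : (e (k + 1) (p k).1 (p k).2 : ℝ) + e (k + 1) (q k).1 (q k).2 ≤
        e k x y + e (k + 2) x y := by exact_mod_cast this
    simp only [hD, hA]
    linarith
  have hterm : ∀ k ∈ range m, mt S (c k) (PH m e b) k x y - 2 * PH m e b x y ≤
      -((1 - b) ^ F * (-b * D k + b ^ 2 * I k)) + b ^ 3 * (cc m k * A k) := by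
    intro k hk
    have hk' := mem_range.mp hk
    rw [hmt k hk']
    have h1 := PH_change b hb0.le hb1 k hk' x y (p k).1 (p k).2 (hp k hk')
    have h2 := PH_change b hb0.le hb1 k hk' x y (q k).1 (q k).2 (hq k hk')
    have h3 : b ^ 3 * (cc m k * D k) ≤ b ^ 3 * (cc m k * A k) :=
      mul_le_mul_of_nonneg_left (mul_le_mul_of_nonneg_left (hDA k hk') (cc_nonneg hk'))
        (by positivity)
    simp only [hD, hI] at h3 ⊢
    rw [← hF] at h1 h2
    linarith
  have hsum := sum_le_sum hterm
  refine hsum.trans ?_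
  rw [sum_add_distrib, sum_neg_distrib, ← mul_sum, ← mul_sum]
  -- the weighted part
  have hwt : ∑ k ∈ range m, cc m k * A k = -2 * F := by
    have := parts m (fun k => (e k x y : ℝ)) m
    simp only [hc.zero, hc.top] at this
    simp only [hA]
    rw [this]
    have h2 : cc m m = 0 := by
      unfold cc
      ring
    rw [h2, hF]
    unfold FF
    push_cast
    ring
  rw [hwt]
  -- the drift
  have hAs : ∑ k ∈ range m, A k = -(e 1 x y : ℝ) - e m x y := by
    have := tele (fun k => (e k x y : ℝ)) m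
    simp only [hc.zero, hc.top] at this
    simp only [hA]
    rw [this]
    push_cast
    ring
  -- slack plus increase
  set R : ℕ → ℝ := fun k => (A k - D k) + I k with hR
  have hR0 : ∀ k, k < m → 0 ≤ R k := by
    intro k hk
    have h1 := hDA k hk
    have h2 := hI0 k
    simp only [hR]
    linarith
  have hR1 : ∀ k, k < m → e (k + 1) x y = 0 → 1 ≤ e k x y + e (k + 2) x y → 1 ≤ R k := by
    intro k hk h1 h2
    have h2' : (1 : ℝ) ≤ e k x y + e (k + 2) x y := by exact_mod_cast h2
    have h3 := hDA k hk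
    by_cases h4 : e (k + 1) (p k).1 (p k).2 = 0
    · by_cases h5 : e (k + 1) (q k).1 (q k).2 = 0
      · have h6 := hI0 k
        have h7 : A k - D k = (e k x y : ℝ) + e (k + 2) x y := by
          simp only [hA, hD, h1, h4, h5]
          push_cast
          ring
        simp only [hR]
        linarith
      · have h6 : 1 ≤ I k := by
          simp only [hI, h1]
          rw [if_pos (Nat.pos_of_ne_zero h5)]
          have : (0 : ℝ) ≤ if 0 < e (k + 1) (p k).1 (p k).2 then (1 : ℝ) else 0 := by
            positivity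
          linarith
        simp only [hR]
        linarith
    · have h6 : 1 ≤ I k := by
        simp only [hI, h1]
        rw [if_pos (Nat.pos_of_ne_zero h4)]
        have : (0 : ℝ) ≤ if 0 < e (k + 1) (q k).1 (q k).2 then (1 : ℝ) else 0 := by
          positivity
        linarith
      simp only [hR]
      linarith
  -- the first and the last discrepancy
  have hex : ∃ j, j ≤ m ∧ e j x y ≠ 0 := by
    by_contra hne
    push Not at hne
    exact hxy (hc.sep x y hne)
  obtain ⟨lo, hlo1, hlo2, hlo3⟩ : ∃ j, j ≤ m ∧ e j x y ≠ 0 ∧ ∀ i, i < j → e i x y = 0 := by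
    have hex' : ∃ j, e j x y ≠ 0 := by
      obtain ⟨j, _, h⟩ := hex
      exact ⟨j, h⟩
    refine ⟨Nat.find hex', ?_, Nat.find_spec hex', ?_⟩
    · obtain ⟨i, hi, h⟩ := hex
      exact (Nat.find_min' hex' h).trans hi
    · intro i hi
      by_contra h
      exact Nat.find_min hex' hi h
  obtain ⟨hi, hhi1, hhi2, hhi3⟩ : ∃ j, j ≤ m ∧ e j x y ≠ 0 ∧
      ∀ i, i ≤ m → j < i → e i x y = 0 := by
    refine ⟨Nat.findGreatest (fun j => e j x y ≠ 0) m, Nat.findGreatest_le m, ?_, ?_⟩
    · exact Nat.findGreatest_spec (P := fun j => e j x y ≠ 0) hlo1 hlo2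
    · intro i hi1 hi2
      by_contra h
      exact absurd (Nat.le_findGreatest (P := fun j => e j x y ≠ 0) hi1 h) (by omega)
  have hlohi : lo ≤ hi := by
    by_contra h
    exact hhi2 (hlo3 hi (by omega))
  have hlo0 : lo ≠ 0 := fun h => hlo2 (by rw [h]; exact hc.zero x y)
  have hcount : 2 ≤ (e 1 x y : ℝ) + e m x y + ∑ k ∈ range m, R k := by
    have he1 : (0 : ℝ) ≤ e 1 x y := by positivity
    have hem : (0 : ℝ) ≤ e m x y := by positivity
    have hRs : 0 ≤ ∑ k ∈ range m, R k :=
      sum_nonneg (fun k hk => hR0 k (mem_range.mp hk))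
    have hL : lo = 1 ∨ ∃ k, lo = k + 2 := by
      rcases Nat.lt_or_ge lo 2 with h | h
      · left; omega
      · right; exact ⟨lo - 2, by omega⟩
    have hone : ∀ k, k < m → 1 ≤ R k → 1 ≤ ∑ k ∈ range m, R k := fun k hk h =>
      h.trans (single_le_sum (fun i hi => hR0 i (mem_range.mp hi)) (mem_range.mpr hk))
    rcases hL with h | ⟨k, h⟩
    · have h1 : (1 : ℝ) ≤ e 1 x y := by
        rw [h] at hlo2
        have := Nat.one_le_iff_ne_zero.mpr hlo2
        exact_mod_cast this
      rcases Nat.lt_or_ge hi m with h2 | h2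
      · have h3 : e (hi + 1) x y = 0 := hhi3 _ (by omega) (by omega)
        have h4 : 1 ≤ R hi := hR1 hi h2 h3 (by
          have := Nat.one_le_iff_ne_zero.mpr hhi2
          omega)
        have h5 := hone hi h2 h4
        linarith
      · have h3 : hi = m := by omega
        have h4 : (1 : ℝ) ≤ e m x y := by
          rw [h3] at hhi2
          have := Nat.one_le_iff_ne_zero.mpr hhi2
          exact_mod_cast this
        linarith
    · have hkm : k < m := by omega
      have h3 : 1 ≤ R k := hR1 k hkm (hlo3 _ (by omega)) (by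
        rw [h] at hlo2
        have := Nat.one_le_iff_ne_zero.mpr hlo2
        omega)
      rcases Nat.lt_or_ge hi m with h2 | h2
      · have h4 : e (hi + 1) x y = 0 := hhi3 _ (by omega) (by omega)
        have h5 : 1 ≤ R hi := hR1 hi h2 h4 (by
          have := Nat.one_le_iff_ne_zero.mpr hhi2
          omega)
        have hne : k ≠ hi := by omega
        have h6 : R k + R hi ≤ ∑ k ∈ range m, R k := by
          rw [← sum_pair hne]
          apply sum_le_sum_of_subset_of_nonneg
          · intro i hi'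
            simp only [mem_insert, mem_singleton] at hi'
            rw [mem_range]
            omega
          · intro i hi' _
            exact hR0 i (mem_range.mp hi')
        linarith
      · have h4 : hi = m := by omega
        have h5 : (1 : ℝ) ≤ e m x y := by
          rw [h4] at hhi2
          have := Nat.one_le_iff_ne_zero.mpr hhi2
          exact_mod_cast this
        have h6 := hone k hkm h3
        linarith
  have hmain : 2 * b ^ 2 ≤ ∑ k ∈ range m, (-b * D k + b ^ 2 * I k) := by
    have hbb : b ^ 2 ≤ b := by nlinarith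
    have h1 : ∑ k ∈ range m, (-b * D k + b ^ 2 * I k) =
        b * ((e 1 x y : ℝ) + e m x y) + ∑ k ∈ range m, (b * (A k - D k) + b ^ 2 * I k) := by
      have h2 : ∑ k ∈ range m, (b * (A k - D k) + b ^ 2 * I k) =
          b * ∑ k ∈ range m, A k + ∑ k ∈ range m, (-b * D k + b ^ 2 * I k) := by
        rw [mul_sum, ← sum_add_distrib]
        apply sum_congr rfl
        intro k _
        ring
      rw [h2, hAs]
      ring
    have h3 : b ^ 2 * ∑ k ∈ range m, R k ≤
        ∑ k ∈ range m, (b * (A k - D k) + b ^ 2 * I k) := by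
      rw [mul_sum]
      apply sum_le_sum
      intro k hk
      have h4 := hDA k (mem_range.mp hk)
      simp only [hR]
      nlinarith
    have h5 : b ^ 2 * ((e 1 x y : ℝ) + e m x y) ≤ b * ((e 1 x y : ℝ) + e m x y) :=
      mul_le_mul_of_nonneg_right hbb (by positivity)
    have hb2 : 0 < b ^ 2 := by positivity
    rw [h1]
    nlinarith
  have hr0 : 0 ≤ (1 - b) ^ F := pow_nonneg (by linarith) F
  have hmul := mul_le_mul_of_nonneg_left hmain hr0
  have hbern : 1 - F * b ≤ (1 - b) ^ F := by
    have := one_add_mul_le_pow (a := -b) (by linarith) F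
    calc 1 - F * b = 1 + F * -b := by ring
      _ ≤ (1 + -b) ^ F := this
      _ = (1 - b) ^ F := by ring
  have hb2 : 0 < b ^ 2 := by positivity
  nlinarith

/-- two point maximum principle -/
theorem twopoint [Fintype X] (hc : Cpl S m e) (b : ℝ) (hb0 : 0 < b) (hb1 : b ≤ 1) (φ : X → ℝ)
    (M t : ℝ) (hM : ∀ x y, LL S m φ x - LL S m φ y ≤ M) (ht0 : 0 ≤ t) (ht : M < t * b ^ 2)
    (x y : X) : φ x - φ y ≤ t * PH m e b x y := by
  classical
  by_contra hcon
  push Not at hcon
  have hne : (univ : Finset (X × X)).Nonempty := ⟨(x, y), mem_univ _⟩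
  obtain ⟨⟨x0, y0⟩, _, hmax⟩ := exists_max_image univ
    (fun z : X × X => φ z.1 - φ z.2 - t * PH m e b z.1 z.2) hne
  set W : ℝ := φ x0 - φ y0 - t * PH m e b x0 y0 with hW
  have hle : ∀ u v, φ u - φ v ≤ W + t * PH m e b u v := by
    intro u v
    have := hmax (u, v) (mem_univ _)
    simp only at this
    linarith
  have hWpos : 0 < W := by
    have := hle x y
    linarith
  have hne0 : x0 ≠ y0 := by
    intro h
    have h1 : PH m e b x0 y0 = 0 := by
      rw [h]
      unfold PH FF FC
      simp [hc.self]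
    rw [hW, h1, h] at hWpos
    simp at hWpos
  obtain ⟨σ, hσ⟩ := super hc b hb0 hb1 x0 y0 hne0
  have hstep : ∀ k ∈ range m,
      (φ x0 + φ (S k x0) - φ y0 - φ (S k y0)) - 2 * (φ x0 - φ y0) ≤
      t * (mt S (σ k) (PH m e b) k x0 y0 - 2 * PH m e b x0 y0) := by
    intro k _
    unfold mt
    split_ifs
    · have h1 := hle x0 y0
      have h2 := hle (S k x0) (S k y0)
      rw [hW] at h1 h2
      linarith
    · have h1 := hle x0 (S k y0)
      have h2 := hle (S k x0) y0
      rw [hW] at h1 h2
      linarith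
  have hsum := sum_le_sum hstep
  rw [← mul_sum] at hsum
  have hlhs : ∑ k ∈ range m, ((φ x0 + φ (S k x0) - φ y0 - φ (S k y0)) - 2 * (φ x0 - φ y0)) =
      -2 * (LL S m φ x0 - LL S m φ y0) := by
    unfold LL qd
    rw [← sum_sub_distrib, mul_sum]
    apply sum_congr rfl
    intro k _
    ring
  rw [hlhs] at hsum
  have h1 := hM x0 y0
  have h2 := mul_le_mul_of_nonneg_left hσ ht0
  nlinarith

theorem ker_const [Fintype X] (hc : Cpl S m e) (φ : X → ℝ) (h : ∀ x, LL S m φ x = 0)
    (x y : X) : φ x = φ y := by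
  have key : ∀ u v, φ u ≤ φ v := by
    intro u v
    by_contra hlt
    push Not at hlt
    set P := PH m e 1 u v with hP
    have hall : ∀ t : ℝ, 0 < t → φ u - φ v ≤ t * P := by
      intro t ht
      exact twopoint hc 1 one_pos le_rfl φ 0 t (by intro a b; rw [h, h]; simp) ht.le
        (by simpa using ht) u v
    have h1 := hall 1 one_pos
    have hPpos : 0 < P := by linarith
    have h2 := hall ((φ u - φ v) / (2 * P)) (by
      apply div_pos
      · linarith
      · linarith)
    have h3 : (φ u - φ v) / (2 * P) * P = (φ u - φ v) / 2 := by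
      field_simp
    rw [h3] at h2
    linarith
  exact le_antisymm (key x y) (key y x)

/-- the linear map `L + J` -/
noncomputable def MM (S : ℕ → X → X) (m : ℕ) [Fintype X] :
    (X → ℝ) →ₗ[ℝ] (X → ℝ) where
  toFun f x := LL S m f x + ∑ y, f y
  map_add' f g := by
    funext x
    simp only [LL, qd, Pi.add_apply]
    rw [sum_add_distrib]
    have : ∑ k ∈ range m, ((f x + g x - (f (S k x) + g (S k x))) / 2) =
        ∑ k ∈ range m, ((f x - f (S k x)) / 2)
          + ∑ k ∈ range m, ((g x - g (S k x)) / 2) := by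
      rw [← sum_add_distrib]
      apply sum_congr rfl
      intro k _
      ring
    rw [this]
    ring
  map_smul' c f := by
    funext x
    simp only [LL, qd, Pi.smul_apply, smul_eq_mul, RingHom.id_apply]
    have : ∑ k ∈ range m, ((c * f x - c * f (S k x)) / 2) =
        c * ∑ k ∈ range m, ((f x - f (S k x)) / 2) := by
      rw [mul_sum]
      apply sum_congr rfl
      intro k _
      ring
    rw [← mul_sum, this]
    ring

theorem sum_LL [Fintype X] (hc : Cpl S m e) (f : X → ℝ) : ∑ x, LL S m f x = 0 := by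
  unfold LL
  rw [sum_comm]
  apply sum_eq_zero
  intro k hk
  have h1 := sum_inv (S k) (hc.inv k (mem_range.mp hk)) f
  unfold qd
  rw [← sum_div, sum_sub_distrib, h1]
  simp

theorem exists_solution [Fintype X] (hc : Cpl S m e)
    (f : X → ℝ) (hf : ∑ x, f x = 0) : ∃ g : X → ℝ, ∀ x, LL S m g x = f x := by
  rcases isEmpty_or_nonempty X with hX | hX
  · exact ⟨f, fun x => (hX.false x).elim⟩
  have hcard : (0 : ℝ) < Fintype.card X := by exact_mod_cast Fintype.card_pos
  have hsum : ∀ g : X → ℝ, ∑ x, MM S m g x = Fintype.card X * ∑ y, g y := by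
    intro g
    have : ∑ x, MM S m g x = ∑ x, (LL S m g x + ∑ y, g y) := rfl
    rw [this, sum_add_distrib, sum_LL hc, zero_add, sum_const, card_univ, nsmul_eq_mul]
  have hinj : Function.Injective (MM S m) := by
    rw [injective_iff_map_eq_zero]
    intro g hg
    have h1 : (Fintype.card X : ℝ) * ∑ y, g y = 0 := by
      rw [← hsum, hg]
      simp
    have h2 : ∑ y, g y = 0 := by
      rcases mul_eq_zero.mp h1 with h3 | h3
      · exact absurd h3 hcard.ne'
      · exact h3
    have h3 : ∀ x, LL S m g x = 0 := by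
      intro x
      have : MM S m g x = LL S m g x + ∑ y, g y := rfl
      rw [hg, h2, add_zero] at this
      exact this.symm
    have h5 := ker_const hc g h3
    funext x
    have h6 : ∑ y, g y = Fintype.card X * g x := by
      rw [sum_congr rfl (fun y _ => h5 y x), sum_const, card_univ, nsmul_eq_mul]
    rw [h2] at h6
    rcases mul_eq_zero.mp h6.symm with h7 | h7
    · exact absurd h7 hcard.ne'
    · exact h7
  have hsurj := LinearMap.injective_iff_surjective.mp hinj
  obtain ⟨g, hg⟩ := hsurj f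
  refine ⟨g, fun x => ?_⟩
  have h1 : (Fintype.card X : ℝ) * ∑ y, g y = 0 := by
    rw [← hsum, hg, hf]
  have h2 : ∑ y, g y = 0 := by
    rcases mul_eq_zero.mp h1 with h3 | h3
    · exact absurd h3 hcard.ne'
    · exact h3
  have : MM S m g x = LL S m g x + ∑ y, g y := rfl
  rw [hg, h2, add_zero] at this
  exact this.symm

theorem qd_symm [Fintype X] (k : ℕ) (hk : ∀ x, S k (S k x) = x)
    (f g : X → ℝ) : ∑ x, qd S k f x * g x = ∑ x, qd S k f x * qd S k g x := by
  have h : ∑ x, qd S k f x * g x = ∑ x, qd S k f (S k x) * g (S k x) :=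
    (sum_inv (S k) hk (fun x => qd S k f x * g x)).symm
  have h2 : ∑ x, qd S k f (S k x) * g (S k x) = ∑ x, -(qd S k f x * g (S k x)) := by
    apply sum_congr rfl
    intro x _
    unfold qd
    rw [hk]
    ring
  have h3 : ∑ x, qd S k f x * qd S k g x =
      (∑ x, qd S k f x * g x + ∑ x, -(qd S k f x * g (S k x))) / 2 := by
    rw [← sum_add_distrib, sum_div]
    apply sum_congr rfl
    intro x _
    have : qd S k g x = (g x - g (S k x)) / 2 := rfl
    rw [this]
    ring
  rw [h3, ← h2, ← h]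
  ring

/-- the two point function at neighbours -/
theorem PH_adj (hc : Cpl S m e) (b : ℝ) (hb0 : 0 ≤ b) (hb1 : b ≤ 1) (k : ℕ) (hk : k < m)
    (x : X) : PH m e b x (S k x) ≤ (1 - b) * b + b ^ 3 * cc m k := by
  have h1 := FF_change k hk x x x (S k x) (fun j hj => hc.right k hk j hj x x)
  have h2 := FC_change k hk x x x (S k x) (fun j hj => hc.right k hk j hj x x)
  have h3 := hc.adj k hk x
  have h4 : FF m e x x = 0 := by
    unfold FF
    simp [hc.self]
  have h5 : FC m e x x = 0 := by
    unfold FC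
    simp [hc.self]
  rw [hc.self, h4] at h1
  rw [hc.self, h5] at h2
  have h6 : FF m e x (S k x) ≤ 1 := by omega
  have h7 : (1 - b) ≤ (1 - b) ^ FF m e x (S k x) := by
    calc (1 - b) = (1 - b) ^ 1 := by ring
      _ ≤ (1 - b) ^ FF m e x (S k x) :=
        pow_le_pow_of_le_one (by linarith) (by linarith) h6
  have h8 : FC m e x (S k x) ≤ cc m k := by
    rw [h2]
    have h9 : (e (k + 1) x (S k x) : ℝ) ≤ 1 := by exact_mod_cast h3
    have h10 := mul_le_mul_of_nonneg_left h9 (cc_nonneg hk)
    push_cast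
    linarith
  unfold PH
  have h11 : (1 - b) * (1 - (1 - b) ^ FF m e x (S k x)) ≤ (1 - b) * b := by
    apply mul_le_mul_of_nonneg_left
    · linarith
    · linarith
  have h12 : b ^ 3 * FC m e x (S k x) ≤ b ^ 3 * cc m k :=
    mul_le_mul_of_nonneg_left h8 (by positivity)
  linarith

theorem sum_cc (m : ℕ) : ∑ k ∈ range m, cc m k = (m : ℝ) * (m + 1) * (m + 2) / 6 := by
  have h : ∀ n : ℕ, ∑ k ∈ range n, cc m k =
      (m : ℝ) * (n * (n + 1) / 2) - (n : ℝ) * (n + 1) * (n - 1) / 3 := by
    intro n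
    induction n with
    | zero => simp
    | succ n ih =>
      rw [sum_range_succ, ih]
      unfold cc
      push_cast
      ring
  rw [h]
  ring

/-- separators of the state space are large -/
theorem separator [Fintype X] (hc : Cpl S m e) (b : ℝ) (hb0 : 0 < b) (hb1 : b ≤ 1)
    (A C : X → Prop) [DecidablePred A] [DecidablePred C] (hAC : ∀ x, A x → ¬ C x)
    (hS : ∀ k, k < m → ∀ x, A x → ¬ C (S k x)) (α γ w : ℝ)
    (hα : α = ∑ x, if A x then (1 : ℝ) else 0) (hγ : γ = ∑ x, if C x then (1 : ℝ) else 0)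
    (hw : w = ∑ x, if ¬ A x ∧ ¬ C x then (1 : ℝ) else 0) :
    b ^ 2 * (4 * α * γ) ≤
    (α + γ) * w * ((1 - b) * b * m + b ^ 3 * ((m : ℝ) * (m + 1) * (m + 2) / 6)) := by
  have hα0 : 0 ≤ α := by
    rw [hα]
    positivity
  have hγ0 : 0 ≤ γ := by
    rw [hγ]
    positivity
  have hw0 : 0 ≤ w := by
    rw [hw]
    positivity
  set u : X → ℝ := fun x => if A x then (1 : ℝ) else 0 with hu
  set v : X → ℝ := fun x => if C x then (1 : ℝ) else 0 with hv
  set s : X → ℝ := fun x => if ¬ A x ∧ ¬ C x then (1 : ℝ) else 0 with hs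
  have hcases : ∀ x, (u x = 1 ∧ v x = 0 ∧ s x = 0) ∨ (u x = 0 ∧ v x = 1 ∧ s x = 0) ∨
      (u x = 0 ∧ v x = 0 ∧ s x = 1) := by
    intro x
    simp only [hu, hv, hs]
    by_cases h1 : A x
    · left
      simp [h1, hAC x h1]
    · by_cases h2 : C x
      · right; left
        simp [h1, h2]
      · right; right
        simp [h1, h2]
  have hg0 : ∑ x, (γ * u x - α * v x) = 0 := by
    rw [sum_sub_distrib, ← mul_sum, ← mul_sum, ← hα, ← hγ]
    ring
  obtain ⟨φ, hφ⟩ := exists_solution hc (fun x => γ * u x - α * v x) hg0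
  have hM : ∀ x y, LL S m φ x - LL S m φ y ≤ α + γ := by
    intro x y
    rw [hφ, hφ]
    rcases hcases x with ⟨h1, h2, _⟩ | ⟨h1, h2, _⟩ | ⟨h1, h2, _⟩ <;>
    rcases hcases y with ⟨h3, h4, _⟩ | ⟨h3, h4, _⟩ | ⟨h3, h4, _⟩ <;>
    simp only [h1, h2, h3, h4] <;> linarith
  set K : ℕ → ℝ := fun k => (1 - b) * b + b ^ 3 * cc m k with hK
  have hK0 : ∀ k, k < m → 0 ≤ K k := by
    intro k hk
    simp only [hK]
    have h1 := cc_nonneg hk
    have h2 : 0 ≤ 1 - b := by linarith
    positivity
  have hsumK : ∑ k ∈ range m, K k =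
      (1 - b) * b * m + b ^ 3 * ((m : ℝ) * (m + 1) * (m + 2) / 6) := by
    simp only [hK]
    rw [sum_add_distrib, sum_const, card_range, nsmul_eq_mul, ← mul_sum, sum_cc]
    ring
  -- the pairing of `u - v` with `L φ`
  have hZ : ∑ x, LL S m φ x * (u x - v x) = 2 * α * γ := by
    have : ∀ x, LL S m φ x * (u x - v x) = γ * u x + α * v x := by
      intro x
      rw [hφ]
      rcases hcases x with ⟨h1, h2, _⟩ | ⟨h1, h2, _⟩ | ⟨h1, h2, _⟩ <;> simp only [h1, h2] <;> ring
    simp only [this]
    rw [sum_add_distrib, ← mul_sum, ← mul_sum, ← hα, ← hγ]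
    ring
  have hpair : ∑ x, LL S m φ x * (u x - v x) =
      ∑ k ∈ range m, ∑ x, qd S k φ x * qd S k (fun x => u x - v x) x := by
    have : ∀ x, LL S m φ x * (u x - v x) = ∑ k ∈ range m, qd S k φ x * (u x - v x) := by
      intro x
      unfold LL
      rw [sum_mul]
    simp only [this]
    rw [sum_comm]
    apply sum_congr rfl
    intro k hk
    exact qd_symm k (hc.inv k (mem_range.mp hk)) φ (fun x => u x - v x)
  have hbound : ∀ t : ℝ, α + γ < t * b ^ 2 → 0 ≤ t →
      2 * α * γ ≤ t * (w / 2 * ∑ k ∈ range m, K k) := by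
    intro t ht ht0
    rw [← hZ, hpair]
    have hk : ∀ k ∈ range m, ∑ x, qd S k φ x * qd S k (fun x => u x - v x) x ≤
        t * (w / 2) * K k := by
      intro k hk
      have hk' := mem_range.mp hk
      have hx : ∀ x ∈ (univ : Finset X), qd S k φ x * qd S k (fun x => u x - v x) x ≤
          t * K k / 4 * (s x + s (S k x)) := by
        intro x _
        have h1 := twopoint hc b hb0 hb1 φ (α + γ) t hM ht0 ht x (S k x)
        have h2 := twopoint hc b hb0 hb1 φ (α + γ) t hM ht0 ht (S k x) x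
        have h3 := PH_adj hc b hb0.le hb1 k hk' x
        have h4 := PH_adj hc b hb0.le hb1 k hk' (S k x)
        rw [hc.inv k hk'] at h4
        have h5 := mul_le_mul_of_nonneg_left h3 ht0
        have h6 := mul_le_mul_of_nonneg_left h4 ht0
        have h7 : t * K k = t * ((1 - b) * b + b ^ 3 * cc m k) := rfl
        have h8 : 0 ≤ t * K k := mul_nonneg ht0 (hK0 k hk')
        have h9 : ¬ (u x = 1 ∧ v (S k x) = 1) := by
          rintro ⟨ha, hb⟩
          simp only [hu, hv] at ha hb
          have ha' : A x := by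
            by_contra h
            simp [h] at ha
          have hb' : C (S k x) := by
            by_contra h
            simp [h] at hb
          exact hS k hk' x ha' hb'
        have h10 : ¬ (v x = 1 ∧ u (S k x) = 1) := by
          rintro ⟨ha, hb⟩
          simp only [hu, hv] at ha hb
          have ha' : C x := by
            by_contra h
            simp [h] at ha
          have hb' : A (S k x) := by
            by_contra h
            simp [h] at hb
          have := hS k hk' (S k x) hb'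
          rw [hc.inv k hk'] at this
          exact this ha'
        unfold qd
        rcases hcases x with ⟨a1, a2, a3⟩ | ⟨a1, a2, a3⟩ | ⟨a1, a2, a3⟩ <;>
        rcases hcases (S k x) with ⟨b1, b2, b3⟩ | ⟨b1, b2, b3⟩ | ⟨b1, b2, b3⟩ <;>
        first
          | (refine (h9 ?_).elim; refine ⟨?_, ?_⟩ <;> assumption)
          | (refine (h10 ?_).elim; refine ⟨?_, ?_⟩ <;> assumption)
          | (simp only [a1, a2, a3, b1, b2, b3]; linarith)
      refine (sum_le_sum hx).trans ?_
      rw [← mul_sum, sum_add_distrib, sum_inv (S k) (hc.inv k hk') s, ← hw]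
      exact le_of_eq (by ring)
    refine (sum_le_sum hk).trans ?_
    rw [← mul_sum]
    exact le_of_eq (by ring)
  -- let `t` tend to `(α + γ) / b ^ 2`
  have hb2 : 0 < b ^ 2 := by positivity
  set Q : ℝ := w / 2 * ∑ k ∈ range m, K k with hQ
  have hQ0 : 0 ≤ Q := by
    rw [hQ]
    have : 0 ≤ ∑ k ∈ range m, K k := sum_nonneg (fun k hk => hK0 k (mem_range.mp hk))
    positivity
  have hlim : b ^ 2 * (2 * α * γ) ≤ (α + γ) * Q := by
    by_contra hcon
    push Not at hcon
    set ε : ℝ := (b ^ 2 * (2 * α * γ) - (α + γ) * Q) / (2 * (Q + 1)) with hε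
    have hε0 : 0 < ε := by
      rw [hε]
      apply div_pos
      · linarith
      · linarith
    have h1 := hbound ((α + γ + ε) / b ^ 2) (by
      have : (α + γ + ε) / b ^ 2 * b ^ 2 = α + γ + ε := by field_simp
      rw [this]
      linarith) (by positivity)
    have h2 : b ^ 2 * (2 * α * γ) ≤ (α + γ + ε) * Q := by
      have h3 := mul_le_mul_of_nonneg_left h1 hb2.le
      have h4 : b ^ 2 * ((α + γ + ε) / b ^ 2 * Q) = (α + γ + ε) * Q := by field_simp
      rw [h4] at h3
      exact h3
    have h5 : ε * (2 * (Q + 1)) = b ^ 2 * (2 * α * γ) - (α + γ) * Q := by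
      rw [hε]
      field_simp
    nlinarith
  rw [← hsumK]
  calc b ^ 2 * (4 * α * γ) = 2 * (b ^ 2 * (2 * α * γ)) := by ring
    _ ≤ 2 * ((α + γ) * Q) := by linarith
    _ = _ := by rw [hQ]; ring

end

end Pool.QU13
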