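import Mathlib
import Pool.Agent.QU13.Two

set_option autoImplicit false

namespace Pool.QU13

open Finset

/-- linear extensions of `α` -/
abbrev LX (n : ℕ) (α : Type) [PartialOrder α] : Type :=
  {σ : Fin n ≃ α // ∀ i j, σ i < σ j → i < j}

variable {n : ℕ} {α : Type} [PartialOrder α]

theorem swap_LE (x : LX n α) (k : ℕ) (h : k + 1 < n)
    (hb : ¬ x.1 ⟨k, Nat.lt_of_succ_lt h⟩ < x.1 ⟨k + 1, h⟩) :
    ∀ i j, ((Equiv.swap (⟨k, Nat.lt_of_succ_lt h⟩ : Fin n) ⟨k + 1, h⟩).trans x.1) i <
      ((Equiv.swap (⟨k, Nat.lt_of_succ_lt h⟩ : Fin n) ⟨k + 1, h⟩).trans x.1) j → i < j := by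
  intro i j hij
  simp only [Equiv.trans_apply] at hij
  have h1 := x.2 _ _ hij
  rw [Equiv.swap_apply_def, Equiv.swap_apply_def] at h1
  by_cases hi : i = ⟨k, Nat.lt_of_succ_lt h⟩
  · subst hi
    rw [if_pos rfl] at h1
    by_cases hj : j = ⟨k + 1, h⟩
    · subst hj
      exact Fin.mk_lt_mk.mpr (by omega)
    · split_ifs at h1 with h2
      · exact absurd h1 (by simp)
      · have := Fin.lt_def.mp h1
        rw [Fin.lt_def]
        simp only at this ⊢
        omega
  · rw [if_neg hi] at h1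
    by_cases hi2 : i = ⟨k + 1, h⟩
    · subst hi2
      rw [if_pos rfl] at h1
      by_cases hj : j = ⟨k, Nat.lt_of_succ_lt h⟩
      · subst hj
        exfalso
        apply hb
        have e1 : (Equiv.swap (⟨k, Nat.lt_of_succ_lt h⟩ : Fin n) ⟨k + 1, h⟩) ⟨k + 1, h⟩ = ⟨k, Nat.lt_of_succ_lt h⟩ :=
          Equiv.swap_apply_right _ _
        have e2 : (Equiv.swap (⟨k, Nat.lt_of_succ_lt h⟩ : Fin n) ⟨k + 1, h⟩) ⟨k, Nat.lt_of_succ_lt h⟩ = ⟨k + 1, h⟩ :=
          Equiv.swap_apply_left _ _
        rw [e1, e2] at hij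
        exact hij
      · rw [if_neg hj] at h1
        split_ifs at h1 with h2
        · exact absurd h1 (lt_irrefl _)
        · have := Fin.lt_def.mp h1
          have h3 : j.val ≠ k + 1 := fun h4 => h2 (Fin.ext h4)
          rw [Fin.lt_def]
          simp only at this ⊢
          omega
    · rw [if_neg hi2] at h1
      have h5 : i.val ≠ k := fun h4 => hi (Fin.ext h4)
      have h6 : i.val ≠ k + 1 := fun h4 => hi2 (Fin.ext h4)
      split_ifs at h1 with h2 h3
      · have := Fin.lt_def.mp h1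
        rw [h2, Fin.lt_def]
        simp only at this ⊢
        omega
      · have := Fin.lt_def.mp h1
        rw [h3, Fin.lt_def]
        simp only at this ⊢
        omega
      · exact h1

open Classical in
/-- the adjacent swap, if allowed -/
noncomputable def Sw (k : ℕ) (x : LX n α) : LX n α :=
  if h : k + 1 < n then
    (if hb : x.1 ⟨k, Nat.lt_of_succ_lt h⟩ < x.1 ⟨k + 1, h⟩ then x
    else ⟨(Equiv.swap (⟨k, Nat.lt_of_succ_lt h⟩ : Fin n) ⟨k + 1, h⟩).trans x.1, swap_LE x k h hb⟩)
  else x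

theorem Sw_blocked (x : LX n α) (k : ℕ) (h : k + 1 < n)
    (hb : x.1 ⟨k, Nat.lt_of_succ_lt h⟩ < x.1 ⟨k + 1, h⟩) : Sw k x = x := by
  unfold Sw
  rw [dif_pos h, dif_pos hb]

theorem Sw_val (x : LX n α) (k : ℕ) (h : k + 1 < n)
    (hb : ¬ x.1 ⟨k, Nat.lt_of_succ_lt h⟩ < x.1 ⟨k + 1, h⟩) :
    (Sw k x).1 = (Equiv.swap (⟨k, Nat.lt_of_succ_lt h⟩ : Fin n) ⟨k + 1, h⟩).trans x.1 := by
  unfold Sw
  rw [dif_pos h, dif_neg hb]

theorem Sw_left (x : LX n α) (k : ℕ) (h : k + 1 < n)
    (hb : ¬ x.1 ⟨k, Nat.lt_of_succ_lt h⟩ < x.1 ⟨k + 1, h⟩) :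
    (Sw k x).1 ⟨k, Nat.lt_of_succ_lt h⟩ = x.1 ⟨k + 1, h⟩ := by
  rw [Sw_val x k h hb, Equiv.trans_apply, Equiv.swap_apply_left]

theorem Sw_right (x : LX n α) (k : ℕ) (h : k + 1 < n)
    (hb : ¬ x.1 ⟨k, Nat.lt_of_succ_lt h⟩ < x.1 ⟨k + 1, h⟩) :
    (Sw k x).1 ⟨k + 1, h⟩ = x.1 ⟨k, Nat.lt_of_succ_lt h⟩ := by
  rw [Sw_val x k h hb, Equiv.trans_apply, Equiv.swap_apply_right]

theorem Sw_other (x : LX n α) (k : ℕ) (i : Fin n) (h1 : i.val ≠ k) (h2 : i.val ≠ k + 1) :
    (Sw k x).1 i = x.1 i := by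
  by_cases h : k + 1 < n
  · by_cases hb : x.1 ⟨k, Nat.lt_of_succ_lt h⟩ < x.1 ⟨k + 1, h⟩
    · rw [Sw_blocked x k h hb]
    · rw [Sw_val x k h hb, Equiv.trans_apply, Equiv.swap_apply_of_ne_of_ne]
      · intro h3
        exact h1 (congrArg Fin.val h3)
      · intro h3
        exact h2 (congrArg Fin.val h3)
  · unfold Sw
    rw [dif_neg h]

theorem not_rev (x : LX n α) (k : ℕ) (h : k + 1 < n) :
    ¬ x.1 ⟨k + 1, h⟩ < x.1 ⟨k, Nat.lt_of_succ_lt h⟩ := by
  intro h1
  have := Fin.lt_def.mp (x.2 _ _ h1)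
  simp only at this
  omega

theorem Sw_inv (k : ℕ) (h : k + 1 < n) (x : LX n α) : Sw k (Sw k x) = x := by
  by_cases hb : x.1 ⟨k, Nat.lt_of_succ_lt h⟩ < x.1 ⟨k + 1, h⟩
  · rw [Sw_blocked x k h hb, Sw_blocked x k h hb]
  · apply Subtype.ext
    have hb' : ¬ (Sw k x).1 ⟨k, Nat.lt_of_succ_lt h⟩ < (Sw k x).1 ⟨k + 1, h⟩ := by
      rw [Sw_left x k h hb, Sw_right x k h hb]
      exact not_rev x k h
    rw [Sw_val (Sw k x) k h hb', Sw_val x k h hb, ← Equiv.trans_assoc, Equiv.swap_swap]
    rfl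

/-- position of an element -/
def pos (x : LX n α) (v : α) : ℕ := (x.1.symm v).val

theorem pos_lt (x : LX n α) (v : α) : pos x v < n := (x.1.symm v).isLt

theorem pos_eq (x : LX n α) (v : α) (k : ℕ) (h : k < n) : pos x v = k ↔ v = x.1 ⟨k, h⟩ := by
  unfold pos
  constructor
  · intro h1
    have : x.1.symm v = ⟨k, h⟩ := Fin.ext h1
    rw [← this, Equiv.apply_symm_apply]
  · intro h1
    rw [h1, Equiv.symm_apply_apply]

theorem pos_mono (x : LX n α) (u v : α) (h : u < v) : pos x u < pos x v := by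
  have := x.2 (x.1.symm u) (x.1.symm v) (by simpa using h)
  exact Fin.lt_def.mp this

theorem pos_inj (x : LX n α) (u v : α) (h : pos x u = pos x v) : u = v :=
  x.1.symm.injective (Fin.ext h)

variable [Fintype α]

/-- the first `j` elements -/
def pre (x : LX n α) (j : ℕ) : Finset α := univ.filter (fun v => pos x v < j)

theorem mem_pre (x : LX n α) (j : ℕ) (v : α) : v ∈ pre x j ↔ pos x v < j := by
  simp [pre]

omit [Fintype α] in
theorem pos_Sw (x : LX n α) (k : ℕ) (h : k + 1 < n)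
    (hb : ¬ x.1 ⟨k, Nat.lt_of_succ_lt h⟩ < x.1 ⟨k + 1, h⟩) (v : α) :
    (pos x v = k ∧ pos (Sw k x) v = k + 1) ∨ (pos x v = k + 1 ∧ pos (Sw k x) v = k) ∨
    (pos x v ≠ k ∧ pos x v ≠ k + 1 ∧ pos (Sw k x) v = pos x v) := by
  by_cases h1 : pos x v = k
  · left
    refine ⟨h1, ?_⟩
    rw [pos_eq x v k (by omega)] at h1
    rw [pos_eq (Sw k x) v (k + 1) h, Sw_right x k h hb]
    exact h1
  · by_cases h2 : pos x v = k + 1
    · right; left
      refine ⟨h2, ?_⟩
      rw [pos_eq x v (k + 1) h] at h2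
      rw [pos_eq (Sw k x) v k (by omega), Sw_left x k h hb]
      exact h2
    · right; right
      refine ⟨h1, h2, ?_⟩
      rw [pos_eq (Sw k x) v (pos x v) (pos_lt x v), Sw_other x k ⟨pos x v, pos_lt x v⟩ h1 h2,
        ← pos_eq x v (pos x v) (pos_lt x v)]

theorem pre_Sw (x : LX n α) (k : ℕ) (h : k + 1 < n) (j : ℕ) (hj : j ≠ k + 1) :
    pre (Sw k x) j = pre x j := by
  by_cases hb : x.1 ⟨k, Nat.lt_of_succ_lt h⟩ < x.1 ⟨k + 1, h⟩
  · rw [Sw_blocked x k h hb]
  · ext v
    rw [mem_pre, mem_pre]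
    rcases pos_Sw x k h hb v with ⟨h1, h2⟩ | ⟨h1, h2⟩ | ⟨_, _, h2⟩
    · omega
    · omega
    · omega

theorem card_pre (x y : LX n α) (j : ℕ) : (pre x j).card = (pre y j).card := by
  have h : ∀ z : LX n α, pre z j =
      (univ.filter (fun i : Fin n => i.val < j)).map z.1.toEmbedding := by
    intro z
    ext v
    rw [mem_pre, mem_map]
    constructor
    · intro h1
      refine ⟨z.1.symm v, ?_, by simp⟩
      simp only [mem_filter, mem_univ, true_and]
      exact h1
    · rintro ⟨i, hi, rfl⟩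
      simp only [mem_filter, mem_univ, true_and] at hi
      simpa [pos] using hi
  rw [h x, h y, card_map, card_map]

variable [DecidableEq α]

theorem pre_succ (x : LX n α) (k : ℕ) (h : k < n) :
    pre x (k + 1) = insert (x.1 ⟨k, h⟩) (pre x k) := by
  ext v
  rw [mem_insert, mem_pre, mem_pre, ← pos_eq x v k h]
  omega

omit [DecidableEq α] in
theorem not_mem_pre (x : LX n α) (k : ℕ) (h : k < n) : x.1 ⟨k, h⟩ ∉ pre x k := by
  rw [mem_pre]
  have : pos x (x.1 ⟨k, h⟩) = k := (pos_eq x _ k h).mpr rfl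
  omega

/-- the site distance -/
def ee (j : ℕ) (x y : LX n α) : ℕ := (pre x j \ pre y j).card

omit [PartialOrder α] [Fintype α] in
theorem card_formula (S T : Finset α) (a c : α) (ha : a ∉ S) (hc : c ∉ T) :
    ((insert a S) \ (insert c T)).card + (if c ∈ S then 1 else 0) + (if a = c then 1 else 0)
      = (S \ T).card + (if a ∈ T then 0 else 1) := by
  by_cases hac : a = c
  · subst hac
    have h1 : (insert a S) \ (insert a T) = S \ T := by
      ext v
      simp only [mem_sdiff, mem_insert, not_or]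
      constructor
      · rintro ⟨h1 | h1, h2, h3⟩
        · exact absurd h1 h2
        · exact ⟨h1, h3⟩
      · rintro ⟨h1, h2⟩
        refine ⟨Or.inr h1, ?_, h2⟩
        rintro rfl
        exact ha h1
    rw [h1, if_neg ha, if_neg hc, if_pos rfl]
  · rw [if_neg hac]
    have h1 : (insert a S) \ (insert c T) =
        (if a ∈ T then (S \ T).erase c else insert a ((S \ T).erase c)) := by
      split_ifs with h
      · ext v
        simp only [mem_sdiff, mem_insert, not_or, mem_erase]
        constructor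
        · rintro ⟨h1 | h1, h2, h3⟩
          · subst h1
            exact absurd h h3
          · exact ⟨h2, h1, h3⟩
        · rintro ⟨h1, h2, h3⟩
          exact ⟨Or.inr h2, h1, h3⟩
      · ext v
        simp only [mem_sdiff, mem_insert, not_or, mem_erase]
        constructor
        · rintro ⟨h1 | h1, h2, h3⟩
          · exact Or.inl h1
          · exact Or.inr ⟨h2, h1, h3⟩
        · rintro (h1 | ⟨h1, h2, h3⟩)
          · subst h1
            exact ⟨Or.inl rfl, hac, h⟩
          · exact ⟨Or.inr h2, h1, h3⟩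
    have h2 : ((S \ T).erase c).card + (if c ∈ S then 1 else 0) = (S \ T).card := by
      split_ifs with h
      · exact card_erase_add_one (mem_sdiff.mpr ⟨h, hc⟩)
      · rw [erase_eq_of_notMem (fun h3 => h (mem_sdiff.mp h3).1)]
        rfl
    rw [h1]
    split_ifs with h3 h4 h4
    · rw [if_pos h4] at h2
      omega
    · rw [if_neg h4] at h2
      omega
    · rw [card_insert_of_notMem (fun h5 => ha (mem_sdiff.mp (mem_of_mem_erase h5)).1)]
      rw [if_pos h4] at h2
      omega
    · rw [card_insert_of_notMem (fun h5 => ha (mem_sdiff.mp (mem_of_mem_erase h5)).1)]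
      rw [if_neg h4] at h2
      omega

/-- the arithmetic of the four unblocked or blocked cases -/
theorem ee_formula (x y : LX n α) (k : ℕ) (h : k < n) :
    ee (k + 1) x y + (if y.1 ⟨k, h⟩ ∈ pre x k then 1 else 0)
      + (if x.1 ⟨k, h⟩ = y.1 ⟨k, h⟩ then 1 else 0)
      = ee k x y + (if x.1 ⟨k, h⟩ ∈ pre y k then 0 else 1) := by
  unfold ee
  rw [pre_succ x k h, pre_succ y k h]
  exact card_formula _ _ _ _ (not_mem_pre x k h) (not_mem_pre y k h)

/-- indicator -/
def ind (p : Prop) [Decidable p] : ℕ := if p then 1 else 0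

theorem ind_congr {p q : Prop} [Decidable p] [Decidable q] (h : p ↔ q) : ind p = ind q := by
  unfold ind
  by_cases hp : p
  · rw [if_pos hp, if_pos (h.mp hp)]
  · rw [if_neg hp, if_neg (fun hq => hp (h.mpr hq))]

theorem ind_cases (p : Prop) [Decidable p] : (p ∧ ind p = 1) ∨ (¬ p ∧ ind p = 0) := by
  unfold ind
  by_cases hp : p
  · exact Or.inl ⟨hp, if_pos hp⟩
  · exact Or.inr ⟨hp, if_neg hp⟩

theorem ee_succ (x y : LX n α) (k : ℕ) (h : k < n) :
    ee (k + 1) x y + ind (pos x (y.1 ⟨k, h⟩) < k) + ind (pos y (x.1 ⟨k, h⟩) = k)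
      + ind (pos y (x.1 ⟨k, h⟩) < k) = ee k x y + 1 := by
  have h1 := ee_formula x y k h
  simp only [mem_pre] at h1
  simp only [pos_eq y _ k h]
  have h2 : (if pos y (x.1 ⟨k, h⟩) < k then 0 else 1) + ind (pos y (x.1 ⟨k, h⟩) < k) = 1 := by
    unfold ind
    split_ifs <;> rfl
  unfold ind at h2 ⊢
  omega

theorem ee_Sw_left (x y : LX n α) (k : ℕ) (h : k + 1 < n) (j : ℕ) (hj : j ≠ k + 1) :
    ee j (Sw k x) y = ee j x y := by
  unfold ee
  rw [pre_Sw x k h j hj]

theorem ee_Sw_right (x y : LX n α) (k : ℕ) (h : k + 1 < n) (j : ℕ) (hj : j ≠ k + 1) :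
    ee j x (Sw k y) = ee j x y := by
  unfold ee
  rw [pre_Sw y k h j hj]

omit [Fintype α] [DecidableEq α] in
theorem ind_Sw_eq (x : LX n α) (k : ℕ) (h : k + 1 < n)
    (hb : ¬ x.1 ⟨k, Nat.lt_of_succ_lt h⟩ < x.1 ⟨k + 1, h⟩) (v : α) :
    ind (pos (Sw k x) v = k) = ind (pos x v = k + 1) := by
  apply ind_congr
  rcases pos_Sw x k h hb v with ⟨h1, h2⟩ | ⟨h1, h2⟩ | ⟨h1, h2, h3⟩ <;> omega

omit [Fintype α] [DecidableEq α] in
theorem ind_Sw_lt (x : LX n α) (k : ℕ) (h : k + 1 < n)
    (hb : ¬ x.1 ⟨k, Nat.lt_of_succ_lt h⟩ < x.1 ⟨k + 1, h⟩) (v : α) :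
    ind (pos (Sw k x) v < k) = ind (pos x v < k) := by
  apply ind_congr
  rcases pos_Sw x k h hb v with ⟨h1, h2⟩ | ⟨h1, h2⟩ | ⟨h1, h2, h3⟩ <;> omega

/-- the harmonic coupling property -/
theorem harm (k : ℕ) (h : k + 1 < n) (x y : LX n α) :
    ee (k + 1) x y + ee (k + 1) (Sw k x) (Sw k y) ≤ ee k x y + ee (k + 2) x y ∨
    ee (k + 1) x (Sw k y) + ee (k + 1) (Sw k x) y ≤ ee k x y + ee (k + 2) x y := by
  have hk : k < n := Nat.lt_of_succ_lt h
  set a := x.1 ⟨k, hk⟩ with ha
  set b := x.1 ⟨k + 1, h⟩ with hb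
  set c := y.1 ⟨k, hk⟩ with hc
  set d := y.1 ⟨k + 1, h⟩ with hd
  have hAC : ind (pos y a = k) = ind (pos x c = k) := by
    apply ind_congr
    rw [pos_eq y a k hk, pos_eq x c k hk, ← ha, ← hc]
    exact eq_comm
  have hAD : ind (pos y a = k + 1) = ind (pos x d = k) := by
    apply ind_congr
    rw [pos_eq y a (k + 1) h, pos_eq x d k hk, ← ha, ← hd]
    exact eq_comm
  have hBC : ind (pos y b = k) = ind (pos x c = k + 1) := by
    apply ind_congr
    rw [pos_eq y b k hk, pos_eq x c (k + 1) h, ← hb, ← hc]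
    exact eq_comm
  have hBD : ind (pos y b = k + 1) = ind (pos x d = k + 1) := by
    apply ind_congr
    rw [pos_eq y b (k + 1) h, pos_eq x d (k + 1) h, ← hb, ← hd]
    exact eq_comm
  have hthree : ∀ p : ℕ, ind (p < k) + ind (p = k) + ind (p = k + 1) ≤ 1 := by
    intro p
    rcases ind_cases (p < k) with h1 | h1 <;> rcases ind_cases (p = k) with h2 | h2 <;>
    rcases ind_cases (p = k + 1) with h3 | h3 <;> omega
  have hsucc : ∀ p : ℕ, ind (p < k + 1) = ind (p < k) + ind (p = k) := by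
    intro p
    rcases ind_cases (p < k + 1) with h1 | h1 <;> rcases ind_cases (p < k) with h2 | h2 <;>
    rcases ind_cases (p = k) with h3 | h3 <;> omega
  have tA := hthree (pos y a)
  have tB := hthree (pos y b)
  have tC := hthree (pos x c)
  have tD := hthree (pos x d)
  have E1 := ee_succ x y k hk
  rw [← ha, ← hc] at E1
  have E2 : ee (k + 2) x y + ind (pos x d < k + 1) + ind (pos y b = k + 1)
      + ind (pos y b < k + 1) = ee (k + 1) x y + 1 := ee_succ x y (k + 1) h
  rw [hsucc, hsucc] at E2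
  by_cases hx : a < b
  · have hsx : Sw k x = x := Sw_blocked x k h hx
    have hABlt : pos y a < pos y b := pos_mono y a b hx
    have hmono : ind (pos y b < k) + ind (pos y b = k) ≤ ind (pos y a < k) := by
      rcases ind_cases (pos y b < k) with h1 | h1 <;> rcases ind_cases (pos y b = k) with h2 | h2
        <;> rcases ind_cases (pos y a < k) with h3 | h3 <;> omega
    have hmono2 : ind (pos y b = k + 1) ≤ ind (pos y a < k) + ind (pos y a = k) := by
      rcases ind_cases (pos y b = k + 1) with h1 | h1 <;>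
      rcases ind_cases (pos y a < k) with h2 | h2 <;>
      rcases ind_cases (pos y a = k) with h3 | h3 <;> omega
    by_cases hy : c < d
    · have hsy : Sw k y = y := Sw_blocked y k h hy
      have hCDlt : pos x c < pos x d := pos_mono x c d hy
      have hmono3 : ind (pos x d < k) + ind (pos x d = k) ≤ ind (pos x c < k) := by
        rcases ind_cases (pos x d < k) with h1 | h1 <;>
        rcases ind_cases (pos x d = k) with h2 | h2 <;>
        rcases ind_cases (pos x c < k) with h3 | h3 <;> omega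
      have hmono4 : ind (pos x d = k + 1) ≤ ind (pos x c < k) + ind (pos x c = k) := by
        rcases ind_cases (pos x d = k + 1) with h1 | h1 <;>
        rcases ind_cases (pos x c < k) with h2 | h2 <;>
        rcases ind_cases (pos x c = k) with h3 | h3 <;> omega
      left
      rw [hsx, hsy]
      omega
    · left
      rw [hsx]
      have E3 := ee_succ x (Sw k y) k hk
      rw [Sw_left y k h hy, ← ha, ← hd, ee_Sw_right x y k h k (by omega), ind_Sw_eq y k h hy,
        ind_Sw_lt y k h hy] at E3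
      have hno : ind (pos y a = k) + ind (pos y b = k + 1) ≤ 1 := by
        rcases ind_cases (pos y a = k) with h1 | h1 <;>
        rcases ind_cases (pos y b = k + 1) with h2 | h2
        · exfalso
          have h3 := h1.1
          have h4 := h2.1
          rw [pos_eq y a k hk] at h3
          rw [pos_eq y b (k + 1) h] at h4
          rw [h3, h4] at hx
          exact hy hx
        all_goals omega
      omega
  · by_cases hy : c < d
    · have hsy : Sw k y = y := Sw_blocked y k h hy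
      have hCDlt : pos x c < pos x d := pos_mono x c d hy
      have hmono3 : ind (pos x d < k) + ind (pos x d = k) ≤ ind (pos x c < k) := by
        rcases ind_cases (pos x d < k) with h1 | h1 <;>
        rcases ind_cases (pos x d = k) with h2 | h2 <;>
        rcases ind_cases (pos x c < k) with h3 | h3 <;> omega
      have hmono4 : ind (pos x d = k + 1) ≤ ind (pos x c < k) + ind (pos x c = k) := by
        rcases ind_cases (pos x d = k + 1) with h1 | h1 <;>
        rcases ind_cases (pos x c < k) with h2 | h2 <;>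
        rcases ind_cases (pos x c = k) with h3 | h3 <;> omega
      left
      rw [hsy]
      have E3 := ee_succ (Sw k x) y k hk
      rw [Sw_left x k h hx, ← hb, ← hc, ee_Sw_left x y k h k (by omega),
        ind_Sw_lt x k h hx] at E3
      have hno : ind (pos x c = k) + ind (pos x d = k + 1) ≤ 1 := by
        rcases ind_cases (pos x c = k) with h1 | h1 <;>
        rcases ind_cases (pos x d = k + 1) with h2 | h2
        · exfalso
          have h3 := h1.1
          have h4 := h2.1
          rw [pos_eq x c k hk] at h3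
          rw [pos_eq x d (k + 1) h] at h4
          rw [h3, h4] at hy
          exact hx hy
        all_goals omega
      omega
    · have E3 := ee_succ (Sw k x) y k hk
      rw [Sw_left x k h hx, ← hb, ← hc, ee_Sw_left x y k h k (by omega),
        ind_Sw_lt x k h hx] at E3
      have E4 := ee_succ x (Sw k y) k hk
      rw [Sw_left y k h hy, ← ha, ← hd, ee_Sw_right x y k h k (by omega),
        ind_Sw_eq y k h hy, ind_Sw_lt y k h hy] at E4
      have E5 := ee_succ (Sw k x) (Sw k y) k hk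
      rw [Sw_left x k h hx, Sw_left y k h hy, ← hb, ← hd, ee_Sw_left x (Sw k y) k h k (by omega),
        ee_Sw_right x y k h k (by omega), ind_Sw_lt x k h hx, ind_Sw_lt y k h hy,
        ind_Sw_eq y k h hy] at E5
      omega

end Pool.QU13
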