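import Mathlib
import Pool.Agent.QU13.Poset

set_option autoImplicit false

namespace Pool.QU13

open Finset

variable {n : ℕ} {α : Type} [PartialOrder α]

theorem cpl [Fintype α] [DecidableEq α] :
    Cpl (X := LX n α) (fun k => Sw k) (n - 1) ee where
  inv k hk x := Sw_inv k (by omega) x
  zero x y := by
    unfold ee
    have : pre x 0 = ∅ := by
      ext v
      simp [mem_pre]
    rw [this]
    simp
  top x y := by
    unfold ee
    have : pre y (n - 1 + 1) = univ := by
      ext v
      simp only [mem_pre, mem_univ, iff_true]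
      have := pos_lt y v
      omega
    rw [this]
    simp
  left k hk j hj x y := ee_Sw_left x y k (by omega) j hj
  right k hk j hj x y := ee_Sw_right x y k (by omega) j hj
  harm k hk x y := harm k (by omega) x y
  sep x y h := by
    have key : ∀ j, pre x j = pre y j := by
      intro j
      rcases Nat.lt_or_ge (n - 1) j with hj | hj
      · ext v
        rw [mem_pre, mem_pre]
        have h1 := pos_lt x v
        have h2 := pos_lt y v
        omega
      · have h1 := h j hj
        unfold ee at h1
        rw [card_eq_zero, sdiff_eq_empty_iff_subset] at h1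
        exact eq_of_subset_of_card_le h1 (card_pre x y j).symm.le
    apply Subtype.ext
    have h2 : x.1.symm = y.1.symm := by
      apply Equiv.ext
      intro v
      apply Fin.ext
      change pos x v = pos y v
      have h3 := key (pos x v)
      have h4 := key (pos x v + 1)
      have h5 : v ∈ pre y (pos x v + 1) := by
        rw [← h4, mem_pre]
        omega
      have h6 : v ∉ pre y (pos x v) := by
        rw [← h3, mem_pre]
        omega
      rw [mem_pre] at h5 h6
      omega
    calc x.1 = x.1.symm.symm := (Equiv.symm_symm _).symm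
      _ = y.1.symm.symm := by rw [h2]
      _ = y.1 := Equiv.symm_symm _
  adj k hk x := by
    have h : k + 1 < n := by omega
    by_cases hb : x.1 ⟨k, Nat.lt_of_succ_lt h⟩ < x.1 ⟨k + 1, h⟩
    · change ee (k + 1) x (Sw k x) ≤ 1
      rw [Sw_blocked x k h hb]
      unfold ee
      simp
    · have E := ee_succ x (Sw k x) k (Nat.lt_of_succ_lt h)
      have h0 : ee k x (Sw k x) = 0 := by
        rw [ee_Sw_right x x k h k (by omega)]
        unfold ee
        simp
      rw [h0] at E
      change ee (k + 1) x (Sw k x) ≤ 1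
      omega
  self j x := by
    unfold ee
    simp

open Classical in
/-- the descent set -/
noncomputable def Ds (f : α ≃ Fin n) (x : LX n α) : Finset (Fin n) :=
  univ.filter (fun i => ∃ h : i.val + 1 < n, f (x.1 ⟨i.val + 1, h⟩) < f (x.1 i))

/-- the number of descents -/
noncomputable def des (f : α ≃ Fin n) (x : LX n α) : ℕ := (Ds f x).card

theorem mem_Ds (f : α ≃ Fin n) (x : LX n α) (i : Fin n) :
    i ∈ Ds f x ↔ ∃ h : i.val + 1 < n, f (x.1 ⟨i.val + 1, h⟩) < f (x.1 i) := by
  unfold Ds
  simp

theorem des_eq (f : α ≃ Fin n) (x : LX n α) :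
    Nat.card {i : Fin n // ∃ h : i.val + 1 < n, f (x.1 ⟨i.val + 1, h⟩) < f (x.1 i)} =
      des f x := by
  classical
  rw [Nat.card_eq_fintype_card, Fintype.card_subtype]
  unfold des Ds
  congr

theorem Sw_apply_ne (x : LX n α) (k : ℕ) (h : k + 1 < n)
    (hb : ¬ x.1 ⟨k, Nat.lt_of_succ_lt h⟩ < x.1 ⟨k + 1, h⟩) (i : Fin n) :
    (i.val = k ∧ (Sw k x).1 i = x.1 ⟨k + 1, h⟩) ∨
    (i.val = k + 1 ∧ (Sw k x).1 i = x.1 ⟨k, Nat.lt_of_succ_lt h⟩) ∨
    (i.val ≠ k ∧ i.val ≠ k + 1 ∧ (Sw k x).1 i = x.1 i) := by
  by_cases h1 : i.val = k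
  · left
    refine ⟨h1, ?_⟩
    have : i = ⟨k, Nat.lt_of_succ_lt h⟩ := Fin.ext h1
    rw [this]
    exact Sw_left x k h hb
  · by_cases h2 : i.val = k + 1
    · right; left
      refine ⟨h2, ?_⟩
      have : i = ⟨k + 1, h⟩ := Fin.ext h2
      rw [this]
      exact Sw_right x k h hb
    · right; right
      exact ⟨h1, h2, Sw_other x k i h1 h2⟩

theorem des_Sw (f : α ≃ Fin n) (x : LX n α) (k : ℕ) (h : k + 1 < n) :
    des f (Sw k x) ≤ des f x + 1 := by
  have hk : k < n := Nat.lt_of_succ_lt h
  by_cases hb : x.1 ⟨k, hk⟩ < x.1 ⟨k + 1, h⟩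
  · rw [Sw_blocked x k h hb]
    omega
  have hL := Sw_left x k h hb
  have hR := Sw_right x k h hb
  have hO := Sw_other x k
  have hne : f (x.1 ⟨k, hk⟩) ≠ f (x.1 ⟨k + 1, h⟩) := by
    intro h1
    have := x.1.injective (f.injective h1)
    simp at this
  rcases lt_or_gt_of_ne hne with hlt | hlt
  · -- ascent before
    have hsub : Ds f (Sw k x) ⊆ insert ⟨k, hk⟩ (Ds f x) := by
      intro i hi
      rw [mem_Ds] at hi
      obtain ⟨h1, h2⟩ := hi
      rw [mem_insert, mem_Ds]
      by_cases hik : i.val = k
      · left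
        exact Fin.ext hik
      · right
        refine ⟨h1, ?_⟩
        by_cases hik1 : i.val = k + 1
        · have e1 : i = ⟨k + 1, h⟩ := Fin.ext hik1
          rw [hO ⟨i.val + 1, h1⟩ (by simp only; omega) (by simp only; omega)] at h2
          have e2 : (Sw k x).1 i = x.1 ⟨k, hk⟩ := by
            rw [e1]
            exact hR
          rw [e2] at h2
          have e3 : x.1 i = x.1 ⟨k + 1, h⟩ := by rw [e1]
          rw [e3]
          exact h2.trans hlt
        · rw [hO i hik hik1] at h2
          by_cases hik2 : i.val + 1 = k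
          · have e1 : (⟨i.val + 1, h1⟩ : Fin n) = ⟨k, hk⟩ := Fin.ext hik2
            rw [e1, hL] at h2
            rw [e1]
            exact hlt.trans h2
          · rw [hO ⟨i.val + 1, h1⟩ hik2 (by simp only; omega)] at h2
            exact h2
    calc des f (Sw k x) ≤ (insert ⟨k, hk⟩ (Ds f x)).card := card_le_card hsub
      _ ≤ des f x + 1 := card_insert_le _ _
  · -- descent before
    have hmem : (⟨k, hk⟩ : Fin n) ∈ Ds f x := by
      rw [mem_Ds]
      exact ⟨h, hlt⟩
    have hsub : Ds f (Sw k x) ⊆ (Ds f x).erase ⟨k, hk⟩ ∪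
        {⟨k - 1, by omega⟩, ⟨k + 1, h⟩} := by
      intro i hi
      rw [mem_Ds] at hi
      obtain ⟨h1, h2⟩ := hi
      rw [mem_union, mem_erase, mem_Ds, mem_insert, mem_singleton]
      by_cases hik : i.val = k
      · exfalso
        have e1 : i = ⟨k, hk⟩ := Fin.ext hik
        have e2 : (⟨i.val + 1, h1⟩ : Fin n) = ⟨k + 1, h⟩ := Fin.ext (by simp only; omega)
        rw [e2, hR, e1, hL] at h2
        exact lt_asymm h2 hlt
      · by_cases hik1 : i.val = k + 1
        · right; right
          exact Fin.ext hik1
        · by_cases hik2 : i.val + 1 = k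
          · right; left
            exact Fin.ext (by simp only; omega)
          · left
            refine ⟨fun h3 => hik (congrArg Fin.val h3), h1, ?_⟩
            rw [hO i hik hik1, hO ⟨i.val + 1, h1⟩ hik2 (by simp only; omega)] at h2
            exact h2
    have hcard : ((Ds f x).erase ⟨k, hk⟩).card + 1 = (Ds f x).card :=
      card_erase_add_one hmem
    calc des f (Sw k x) ≤ ((Ds f x).erase ⟨k, hk⟩ ∪ {⟨k - 1, by omega⟩, ⟨k + 1, h⟩}).card :=
          card_le_card hsub
      _ ≤ ((Ds f x).erase ⟨k, hk⟩).card +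
          ({⟨k - 1, by omega⟩, ⟨k + 1, h⟩} : Finset (Fin n)).card := card_union_le _ _
      _ ≤ ((Ds f x).erase ⟨k, hk⟩).card + 2 := by
          have := card_le_two (a := (⟨k - 1, by omega⟩ : Fin n)) (b := ⟨k + 1, h⟩)
          omega
      _ = des f x + 1 := by
          unfold des
          omega

theorem des_lt (f : α ≃ Fin n) (x : LX n α) (b : ℕ) (hb : b < des f x) : des f x < n := by
  rcases Nat.eq_zero_or_pos n with h | h
  · exfalso
    subst h
    have : (Ds f x).card ≤ 0 := by
      have := card_le_univ (Ds f x)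
      simpa using this
    unfold des at hb
    omega
  · have hlast : (⟨n - 1, by omega⟩ : Fin n) ∉ Ds f x := by
      rw [mem_Ds]
      rintro ⟨h1, _⟩
      simp only at h1
      omega
    have := card_lt_univ_of_notMem hlast
    simpa [des] using this

/-- the separator inequality for the number of descents -/
theorem des_separator [Fintype α] (f : α ≃ Fin n) (b : ℕ) (a c w : ℝ)
    (ha : a = Nat.card {x : LX n α // des f x < b})
    (hc : c = Nat.card {x : LX n α // b < des f x})
    (hw : w = Nat.card {x : LX n α // des f x = b}) :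
    24 * (a * c) ≤ ((n : ℝ) - 1) * (5 * n - 4) * w * (a + c) := by
  classical
  have : Fintype (LX n α) := Fintype.ofFinite _
  have hcount : ∀ (P : LX n α → Prop) [DecidablePred P],
      (Nat.card {x : LX n α // P x} : ℝ) = ∑ x, if P x then (1 : ℝ) else 0 := by
    intro P _
    rw [Nat.card_eq_fintype_card, Fintype.card_subtype]
    simp
  have ha' : a = ∑ x : LX n α, if des f x < b then (1 : ℝ) else 0 := by
    rw [ha, hcount]
  have hc' : c = ∑ x : LX n α, if b < des f x then (1 : ℝ) else 0 := by
    rw [hc, hcount]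
  have hw' : w = ∑ x : LX n α, if ¬ des f x < b ∧ ¬ b < des f x then (1 : ℝ) else 0 := by
    rw [hw, hcount]
    apply sum_congr rfl
    intro x _
    have : (des f x = b) ↔ (¬ des f x < b ∧ ¬ b < des f x) := by omega
    simp only [this]
  have ha0 : 0 ≤ a := by
    rw [ha]
    positivity
  have hc0 : 0 ≤ c := by
    rw [hc]
    positivity
  have hw0 : 0 ≤ w := by
    rw [hw]
    positivity
  rcases Nat.lt_or_ge n 2 with hn | hn
  · -- at most one element: no descents
    have hz : c = 0 := by
      rw [hc', sum_eq_zero]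
      intro x _
      rw [if_neg]
      intro h
      have h1 := des_lt f x b h
      have h2 : des f x = 0 := by omega
      omega
    have hz2 : a = 0 ∨ w = 0 ∨ 1 ≤ n := by
      rcases Nat.eq_zero_or_pos n with h0 | h0
      · by_cases hb : b = 0
        · left
          rw [ha', sum_eq_zero]
          intro x _
          rw [if_neg]
          omega
        · right; left
          rw [hw', sum_eq_zero]
          intro x _
          rw [if_neg]
          rintro ⟨h1, _⟩
          have h2 : (Ds f x).card ≤ n := by
            have := card_le_univ (Ds f x)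
            simpa using this
          have h3 : des f x ≤ n := h2
          omega
      · right; right; exact h0
    rw [hz]
    rcases hz2 with h | h | h
    · rw [h]
      simp
    · rw [h]
      simp
    · have : n = 1 := by omega
      subst this
      simp
  · have hn' : (2 : ℝ) ≤ n := by exact_mod_cast hn
    have hb0 : (0 : ℝ) < 2 / n := by positivity
    have hb1 : (2 : ℝ) / n ≤ 1 := by
      rw [div_le_one (by linarith)]
      exact hn'
    have hsep := separator (cpl (n := n) (α := α)) (2 / n) hb0 hb1
      (fun x => des f x < b) (fun x => b < des f x) (fun x h1 h2 => by omega)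
      (fun k hk x h1 h2 => by
        have h3 := des_Sw f x k (by omega)
        omega) a c w ha' hc' hw'
    have hm : ((n - 1 : ℕ) : ℝ) = (n : ℝ) - 1 := by
      have : 1 ≤ n := by omega
      push_cast [Nat.cast_sub this]
      ring
    rw [hm] at hsep
    have hnpos : (0 : ℝ) < n := by linarith
    have h4 : ((n : ℝ) ^ 2) * ((2 / (n : ℝ)) ^ 2 * (4 * a * c)) = 16 * (a * c) := by
      field_simp
      ring
    have h5 : ((n : ℝ) ^ 2) * ((a + c) * w * ((1 - 2 / (n : ℝ)) * (2 / n) * ((n : ℝ) - 1)
        + (2 / (n : ℝ)) ^ 3 * (((n : ℝ) - 1) * ((n : ℝ) - 1 + 1) * ((n : ℝ) - 1 + 2) / 6))) =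
        2 / 3 * (((n : ℝ) - 1) * (5 * n - 4) * w * (a + c)) := by
      field_simp
      ring
    have h6 := mul_le_mul_of_nonneg_left hsep (sq_nonneg (n : ℝ))
    rw [h4, h5] at h6
    linarith

/-- approximate unimodality of the descent counts -/
theorem approx_unimodal [Fintype α] (f : α ≃ Fin n) (w : ℕ → ℕ)
    (hw : ∀ k : ℕ, w k = Nat.card {σ : Fin n ≃ α // (∀ i j : Fin n, σ i < σ j → i < j) ∧
      Nat.card {i : Fin n // ∃ h : i.val + 1 < n, f (σ ⟨i.val + 1, h⟩) < f (σ i)} = k})
    (b : ℕ) :
    12 * min (∑ i ∈ range b, w i) (∑ i ∈ Ioo b n, w i) ≤ (n - 1) * (5 * n - 4) * w b := by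
  classical
  have : Fintype (LX n α) := Fintype.ofFinite _
  have hwk : ∀ k, w k = Nat.card {x : LX n α // des f x = k} := by
    intro k
    rw [hw]
    apply Nat.card_congr
    refine ⟨fun z => ⟨⟨z.1, z.2.1⟩, ?_⟩, fun z => ⟨z.1.1, z.1.2, ?_⟩, fun z => rfl, fun z => rfl⟩
    · rw [← des_eq]
      exact z.2.2
    · have := z.2
      rw [← des_eq] at this
      exact this
  have hcount : ∀ (P : LX n α → Prop) [DecidablePred P],
      Nat.card {x : LX n α // P x} = ∑ x, if P x then 1 else 0 := by
    intro P _
    rw [Nat.card_eq_fintype_card, Fintype.card_subtype]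
    simp
  have hsum : ∀ s : Finset ℕ, ∑ i ∈ s, w i = ∑ x : LX n α, if des f x ∈ s then 1 else 0 := by
    intro s
    have h1 : ∀ i ∈ s, w i = ∑ x : LX n α, if des f x = i then 1 else 0 := by
      intro i _
      rw [hwk, hcount]
    rw [sum_congr rfl h1, sum_comm]
    apply sum_congr rfl
    intro x _
    rw [sum_ite_eq]
  have hA : ∑ i ∈ range b, w i = Nat.card {x : LX n α // des f x < b} := by
    rw [hsum, hcount]
    apply sum_congr rfl
    intro x _
    simp only [mem_range]
  have hC : ∑ i ∈ Ioo b n, w i = Nat.card {x : LX n α // b < des f x} := by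
    rw [hsum, hcount]
    apply sum_congr rfl
    intro x _
    have : des f x ∈ Ioo b n ↔ b < des f x := by
      rw [mem_Ioo]
      exact ⟨fun h => h.1, fun h => ⟨h, des_lt f x b h⟩⟩
    simp only [this]
  rw [hA, hC, hwk b]
  set A : ℕ := Nat.card {x : LX n α // des f x < b} with hAd
  set C : ℕ := Nat.card {x : LX n α // b < des f x} with hCd
  set W : ℕ := Nat.card {x : LX n α // des f x = b} with hWd
  have hsep := des_separator f b (A : ℝ) C W rfl rfl rfl
  rcases Nat.eq_zero_or_pos n with hn | hn
  · -- empty poset: the second sum is zero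
    have hC0 : C = 0 := by
      rw [hCd, hcount, sum_eq_zero]
      intro x _
      rw [if_neg]
      intro h
      have := des_lt f x b h
      omega
    rw [hC0]
    simp
  · have hcast : (((n - 1) * (5 * n - 4) : ℕ) : ℝ) = ((n : ℝ) - 1) * (5 * n - 4) := by
      rw [Nat.cast_mul, Nat.cast_sub (by omega), Nat.cast_sub (by omega)]
      push_cast
      ring
    rw [← hcast] at hsep
    have hnat : 24 * (A * C) ≤ (n - 1) * (5 * n - 4) * W * (A + C) := by
      exact_mod_cast hsep
    set K : ℕ := (n - 1) * (5 * n - 4) * W with hK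
    rcases Nat.eq_zero_or_pos A with hA0 | hA0
    · rw [hA0]
      simp
    rcases Nat.eq_zero_or_pos C with hC0 | hC0
    · rw [hC0]
      simp
    rcases le_total A C with h | h
    · rw [min_eq_left h]
      have h1 : 24 * (A * C) ≤ K * (2 * C) :=
        hnat.trans (Nat.mul_le_mul_left K (by omega))
      have h2 : (12 * A) * (2 * C) ≤ K * (2 * C) := by
        calc (12 * A) * (2 * C) = 24 * (A * C) := by ring
          _ ≤ K * (2 * C) := h1
      exact Nat.le_of_mul_le_mul_right h2 (by omega)
    · rw [min_eq_right h]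
      have h1 : 24 * (A * C) ≤ K * (2 * A) :=
        hnat.trans (Nat.mul_le_mul_left K (by omega))
      have h2 : (12 * C) * (2 * A) ≤ K * (2 * A) := by
        calc (12 * C) * (2 * A) = 24 * (A * C) := by ring
          _ ≤ K * (2 * A) := h1
      exact Nat.le_of_mul_le_mul_right h2 (by omega)

end Pool.QU13
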